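import Pool.Agent.Q145.LZ.Stm

/-!
# Project LZ, job CMZ: the singular series of `(A x + B) ^ 2 + c_i` and of `x ^ 2 + c_i` compared
-/

set_option autoImplicit false

namespace Pool.Agent.Q121.LZ

open Finset Filter
open Pool.Agent.Q145.LQ Pool.Agent.Q145.LZ

open Classical in
/-- the classes modulo `p` -/
noncomputable def Zs {K : ℕ} (A B : ℕ) (c s : Fin K → ℕ) (p : ℕ) [NeZero p] : Finset (ZMod p) :=
  univ.filter fun x : ZMod p => ∃ i, ((A : ZMod p) * x + B) ^ 2 + c i + s i = 0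

theorem dvd_iff (A B : ℕ) {K : ℕ} (c s : Fin K → ℕ) (p n : ℕ) (i : Fin K) :
    (p : ℤ) ∣ (qz A B c i).eval (n : ℤ) + s i ↔ ((A : ZMod p) * n + B) ^ 2 + c i + s i = 0 := by
  rw [← ZMod.intCast_zmod_eq_zero_iff_dvd]
  unfold qz
  simp

theorem nuQ_eq (A B : ℕ) {K : ℕ} (c s : Fin K → ℕ) (p : ℕ) [NeZero p] :
    nuQ (qz A B c) s p = (Zs A B c s p).card := by
  unfold nuQ Zs
  refine Finset.card_bij (fun n _ => (n : ZMod p)) ?_ ?_ ?_
  · intro n hn
    rw [mem_filter] at hn ⊢
    obtain ⟨_, i, hi⟩ := hn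
    exact ⟨mem_univ _, i, (dvd_iff A B c s p n i).1 hi⟩
  · intro a ha b hb hab
    rw [mem_filter, mem_range] at ha hb
    have := congrArg ZMod.val hab
    rwa [ZMod.val_natCast_of_lt ha.1, ZMod.val_natCast_of_lt hb.1] at this
  · intro x hx
    rw [mem_filter] at hx
    obtain ⟨_, i, hi⟩ := hx
    refine ⟨x.val, ?_, ZMod.natCast_zmod_val x⟩
    rw [mem_filter, mem_range]
    refine ⟨ZMod.val_lt x, i, (dvd_iff A B c s p x.val i).2 ?_⟩
    rwa [ZMod.natCast_zmod_val]

/-- `p` does not divide `A` -/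
theorem nu_coprime (A B : ℕ) {K : ℕ} (c s : Fin K → ℕ) (p : ℕ) [Fact p.Prime] (h : ¬ p ∣ A) :
    nuQ (qz A B c) s p = nuQ (qz 1 0 c) s p := by
  classical
  rw [nuQ_eq, nuQ_eq]
  have hA : (A : ZMod p) ≠ 0 := by
    rwa [Ne, ZMod.natCast_eq_zero_iff]
  unfold Zs
  refine Finset.card_bij (fun x _ => (A : ZMod p) * x + B) ?_ ?_ ?_
  · intro x hx
    rw [mem_filter] at hx ⊢
    obtain ⟨_, i, hi⟩ := hx
    refine ⟨mem_univ _, i, ?_⟩
    simpa using hi
  · intro a _ b _ hab
    exact mul_left_cancel₀ hA (add_right_cancel hab)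
  · intro y hy
    rw [mem_filter] at hy
    obtain ⟨_, i, hi⟩ := hy
    have e : (A : ZMod p) * ((A : ZMod p)⁻¹ * (y - B)) + B = y := by
      rw [mul_inv_cancel_left₀ hA]
      ring
    refine ⟨(A : ZMod p)⁻¹ * (y - B), ?_, e⟩
    rw [mem_filter]
    refine ⟨mem_univ _, i, ?_⟩
    rw [e]
    simpa using hi

/-- `p` divides `A` -/
theorem nu_dvd (A B : ℕ) {K : ℕ} (c s : Fin K → ℕ) (p : ℕ) [Fact p.Prime] (h : p ∣ A)
    (hlt : nuQ (qz A B c) s p < p) :
    nuQ (qz A B c) s p = 0 ∧ nuQ (qz 1 0 c) s p < p := by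
  classical
  have hA : (A : ZMod p) = 0 := (ZMod.natCast_eq_zero_iff A p).2 h
  have hno : ∀ i, ((B : ZMod p)) ^ 2 + c i + s i ≠ 0 := by
    intro i hi
    rw [nuQ_eq] at hlt
    have hall : Zs A B c s p = univ := by
      unfold Zs
      refine Finset.filter_true_of_mem (fun x _ => ⟨i, ?_⟩)
      rw [hA, zero_mul, zero_add]
      exact hi
    rw [hall, Finset.card_univ, ZMod.card] at hlt
    exact lt_irrefl _ hlt
  constructor
  · rw [nuQ_eq, Finset.card_eq_zero]
    unfold Zs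
    refine Finset.filter_false_of_mem (fun x _ => ?_)
    rintro ⟨i, hi⟩
    rw [hA, zero_mul, zero_add] at hi
    exact hno i hi
  · rw [nuQ_eq]
    have hlt2 : (Zs 1 0 c s p).card < (univ : Finset (ZMod p)).card := by
      refine Finset.card_lt_card (Finset.ssubset_univ_iff.2 ?_)
      intro hall
      have hB : (B : ZMod p) ∈ Zs 1 0 c s p := by
        rw [hall]
        exact mem_univ _
      unfold Zs at hB
      rw [mem_filter] at hB
      obtain ⟨_, i, hi⟩ := hB
      refine hno i ?_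
      simpa using hi
    rwa [Finset.card_univ, ZMod.card] at hlt2

/-- at most two square roots -/
theorem nu_le {K : ℕ} (c s : Fin K → ℕ) (p : ℕ) [Fact p.Prime] : nuQ (qz 1 0 c) s p ≤ 2 * K := by
  classical
  rw [nuQ_eq]
  have hsub : Zs 1 0 c s p ⊆ (univ : Finset (Fin K)).biUnion fun i =>
      univ.filter fun x : ZMod p => x ^ 2 + c i + s i = 0 := by
    intro x hx
    unfold Zs at hx
    rw [mem_filter] at hx
    obtain ⟨_, i, hi⟩ := hx
    rw [mem_biUnion]
    refine ⟨i, mem_univ _, ?_⟩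
    rw [mem_filter]
    refine ⟨mem_univ _, ?_⟩
    simpa using hi
  refine (Finset.card_le_card hsub).trans ?_
  refine (Finset.card_biUnion_le).trans ?_
  have h2 : ∀ i ∈ (univ : Finset (Fin K)),
      (univ.filter fun x : ZMod p => x ^ 2 + c i + s i = 0).card ≤ 2 := by
    intro i _
    by_cases hne : (univ.filter fun x : ZMod p => x ^ 2 + c i + s i = 0).Nonempty
    · obtain ⟨y, hy⟩ := hne
      rw [mem_filter] at hy
      have hs2 : (univ.filter fun x : ZMod p => x ^ 2 + c i + s i = 0) ⊆ {y, -y} := by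
        intro x hx
        rw [mem_filter] at hx
        rw [mem_insert, mem_singleton]
        have e : (x - y) * (x + y) = 0 := by linear_combination hx.2 - hy.2
        rcases mul_eq_zero.1 e with e | e
        · left
          exact sub_eq_zero.1 e
        · right
          exact eq_neg_of_add_eq_zero_left e
      exact (Finset.card_le_card hs2).trans Finset.card_le_two
    · rw [Finset.not_nonempty_iff_eq_empty.1 hne]
      simp
  refine (Finset.sum_le_sum h2).trans ?_
  rw [Finset.sum_const, Finset.card_univ, Fintype.card_fin, smul_eq_mul, mul_comm]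

/-- the quotient of the local factors -/
noncomputable def rho {K : ℕ} (A : ℕ) (c s : Fin K → ℕ) (p : ℕ) : ℝ :=
  if p ∣ A then (1 - (nuQ (qz 1 0 c) s p : ℝ) / p)⁻¹ else 1

theorem loc_pos {K : ℕ} (q : Fin K → Polynomial ℤ) (s : Fin K → ℕ) (p : ℕ) (hp : p.Prime)
    (h : nuQ q s p < p) : 0 < locQ q s p := by
  have hp0 : (0 : ℝ) < p := by exact_mod_cast hp.pos
  have hp1 : (1 : ℝ) < p := by exact_mod_cast hp.one_lt
  unfold locQ
  refine div_pos ?_ (pow_pos ?_ K)
  · rw [sub_pos, div_lt_one hp0]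
    exact_mod_cast h
  · rw [sub_pos, div_lt_one hp0]
    exact hp1

theorem loc_eq {K : ℕ} (A B : ℕ) (c s : Fin K → ℕ) (p : ℕ) (hp : p.Prime)
    (h : nuQ (qz A B c) s p < p) :
    locQ (qz A B c) s p = locQ (qz 1 0 c) s p * rho A c s p := by
  have : Fact p.Prime := ⟨hp⟩
  have hp0 : (0 : ℝ) < p := by exact_mod_cast hp.pos
  unfold rho
  by_cases hd : p ∣ A
  · obtain ⟨h1, h2⟩ := nu_dvd A B c s p hd h
    rw [if_pos hd]
    have h3 : (1 - (nuQ (qz 1 0 c) s p : ℝ) / p) ≠ 0 := by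
      apply ne_of_gt
      rw [sub_pos, div_lt_one hp0]
      exact_mod_cast h2
    unfold locQ
    rw [h1, Nat.cast_zero, zero_div, sub_zero, div_mul_eq_mul_div, mul_inv_cancel₀ h3]
  · rw [if_neg hd, mul_one]
    unfold locQ
    rw [nu_coprime A B c s p hd]

theorem adm' {K : ℕ} (A B : ℕ) (c s : Fin K → ℕ) (h : AdmQ (qz A B c) s) :
    AdmQ (qz 1 0 c) s := by
  intro p hp
  have : Fact p.Prime := ⟨hp⟩
  by_cases hd : p ∣ A
  · exact (nu_dvd A B c s p hd (h p hp)).2
  · rw [← nu_coprime A B c s p hd]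
    exact h p hp

theorem rho_ge {K : ℕ} (A : ℕ) (c s : Fin K → ℕ) (h : AdmQ (qz 1 0 c) s) (p : ℕ) (hp : p.Prime) :
    1 ≤ rho A c s p := by
  have hp0 : (0 : ℝ) < p := by exact_mod_cast hp.pos
  unfold rho
  split_ifs
  · have h1 : (0 : ℝ) < 1 - (nuQ (qz 1 0 c) s p : ℝ) / p := by
      rw [sub_pos, div_lt_one hp0]
      exact_mod_cast h p hp
    have h2 : 1 - (nuQ (qz 1 0 c) s p : ℝ) / p ≤ 1 := by
      have : (0 : ℝ) ≤ (nuQ (qz 1 0 c) s p : ℝ) / p := by positivity
      linarith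
    exact (one_le_inv₀ h1).2 h2
  · exact le_rfl

theorem rho_le {K : ℕ} (A : ℕ) (c s : Fin K → ℕ) (p z : ℕ) (hp : p.Prime) (hz : 4 * (K + 1) ≤ z)
    (hzp : z < p) : rho A c s p ≤ if p ∣ A then Real.exp (4 * (K * (1 / (p : ℝ)))) else 1 := by
  have : Fact p.Prime := ⟨hp⟩
  have hp0 : (0 : ℝ) < p := by exact_mod_cast hp.pos
  unfold rho
  split_ifs with hd
  · obtain ⟨x, hx⟩ : ∃ x : ℝ, x = (nuQ (qz 1 0 c) s p : ℝ) / p := ⟨_, rfl⟩
    have hν : (nuQ (qz 1 0 c) s p : ℝ) ≤ 2 * K := by exact_mod_cast nu_le c s p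
    have hK : (4 : ℝ) * (K + 1) ≤ p := by
      have : 4 * (K + 1) ≤ p := hz.trans hzp.le
      exact_mod_cast this
    have hx0 : 0 ≤ x := by rw [hx]; positivity
    have hx1 : x ≤ 2 * (K * (1 / (p : ℝ))) := by
      rw [hx, div_le_iff₀ hp0]
      have e : 2 * (K * (1 / (p : ℝ))) * p = 2 * K := by field_simp
      rw [e]
      exact hν
    have hx2 : x ≤ 1 / 2 := by
      rw [hx, div_le_iff₀ hp0]
      linarith
    rw [← hx]
    have h1 : Real.exp (-(2 * x)) ≤ 1 - x := by
      -- `exp (2 x) (1 - x) ≥ (1 + 2 x) (1 - x) ≥ 1`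
      rw [Real.exp_neg, inv_le_comm₀ (Real.exp_pos _) (by linarith)]
      have h2 : 1 + 2 * x ≤ Real.exp (2 * x) := by
        have := Real.add_one_le_exp (2 * x)
        linarith
      refine le_trans ?_ h2
      rw [inv_le_comm₀ (by linarith) (by linarith), inv_le_iff_one_le_mul₀ (by linarith)]
      nlinarith
    have h2 : (1 - x)⁻¹ ≤ Real.exp (2 * x) := by
      have h3 := inv_anti₀ (Real.exp_pos _) h1
      rwa [Real.exp_neg, inv_inv] at h3
    refine h2.trans (Real.exp_le_exp.2 ?_)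
    linarith
  · exact le_rfl

theorem sing_eq {K : ℕ} (A B : ℕ) (c s : Fin K → ℕ) (h : AdmQ (qz A B c) s) (w : ℕ) :
    singPQ (qz A B c) s w = singPQ (qz 1 0 c) s w * ∏ p ∈ (Icc 1 w).filter Nat.Prime, rho A c s p := by
  unfold singPQ
  rw [← Finset.prod_mul_distrib]
  refine Finset.prod_congr rfl (fun p hp => ?_)
  have hp' := (mem_filter.1 hp).2
  exact loc_eq A B c s p hp' (h p hp')

theorem sing_pos {K : ℕ} (q : Fin K → Polynomial ℤ) (s : Fin K → ℕ) (h : AdmQ q s) (w : ℕ) :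
    0 < singPQ q s w := by
  unfold singPQ
  refine Finset.prod_pos (fun p hp => ?_)
  have hp' := (mem_filter.1 hp).2
  exact loc_pos q s p hp' (h p hp')

theorem split_prod (f : ℕ → ℝ) (z w : ℕ) (h : z ≤ w) :
    ∏ p ∈ (Icc 1 w).filter Nat.Prime, f p = (∏ p ∈ (Icc 1 z).filter Nat.Prime, f p) *
      ∏ p ∈ (Ioc z w).filter Nat.Prime, f p := by
  rw [← Finset.prod_union]
  · refine Finset.prod_congr ?_ (fun _ _ => rfl)
    ext p
    simp only [mem_filter, mem_union, mem_Icc, mem_Ioc]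
    constructor
    · rintro ⟨⟨h1, h2⟩, h3⟩
      by_cases hz : p ≤ z
      · exact Or.inl ⟨⟨h1, hz⟩, h3⟩
      · exact Or.inr ⟨⟨by omega, h2⟩, h3⟩
    · rintro (⟨⟨h1, h2⟩, h3⟩ | ⟨⟨h1, h2⟩, h3⟩)
      · exact ⟨⟨h1, by omega⟩, h3⟩
      · exact ⟨⟨h3.one_le, h2⟩, h3⟩
  · rw [Finset.disjoint_left]
    intro p h1 h2
    rw [mem_filter, mem_Icc] at h1
    rw [mem_filter, mem_Ioc] at h2
    omega

theorem cmz : S_CMZ := by
  intro z K A B c s hA hz hadm
  have hadm' := adm' A B c s hadm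
  have hApos : 0 < A := hA
  obtain ⟨R, hR⟩ : ∃ R : ℕ → ℝ, R = fun w => ∏ p ∈ (Icc 1 w).filter Nat.Prime, rho A c s p :=
    ⟨_, rfl⟩
  have hRw : ∀ w, R w = ∏ p ∈ (Icc 1 w).filter Nat.Prime, rho A c s p := fun w => by rw [hR]
  have hsing : ∀ w, singPQ (qz A B c) s w = singPQ (qz 1 0 c) s w * R w := fun w => by
    rw [hRw w]
    exact sing_eq A B c s hadm w
  have hR1 : ∀ w, 1 ≤ R w := fun w => by
    rw [hRw w]
    have := Finset.prod_le_prod (s := (Icc 1 w).filter Nat.Prime) (f := fun _ => (1 : ℝ))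
      (g := fun p => rho A c s p) (fun _ _ => zero_le_one)
      (fun p hp => rho_ge A c s hadm' p (mem_filter.1 hp).2)
    simpa using this
  have hpos' : ∀ w, 0 < singPQ (qz 1 0 c) s w := sing_pos (qz 1 0 c) s hadm'
  refine ⟨hadm', fun w hw => ?_, ?_⟩
  · have hsplit : R w = R z * ∏ p ∈ (Ioc z w).filter Nat.Prime, rho A c s p := by
      rw [hRw w, hRw z]
      exact split_prod (fun p => rho A c s p) z w hw
    have hQ1 : 1 ≤ ∏ p ∈ (Ioc z w).filter Nat.Prime, rho A c s p := by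
      have := Finset.prod_le_prod (s := (Ioc z w).filter Nat.Prime) (f := fun _ => (1 : ℝ))
        (g := fun p => rho A c s p) (fun _ _ => zero_le_one)
        (fun p hp => rho_ge A c s hadm' p (mem_filter.1 hp).2)
      simpa using this
    have hQ2 : ∏ p ∈ (Ioc z w).filter Nat.Prime, rho A c s p ≤ Real.exp (4 * GA z K A) := by
      have e1 : ∏ p ∈ (Ioc z w).filter Nat.Prime, rho A c s p ≤
          ∏ p ∈ (Ioc z w).filter Nat.Prime,
            (if p ∣ A then Real.exp (4 * (K * (1 / (p : ℝ)))) else 1) := by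
        refine Finset.prod_le_prod (fun p hp => ?_) (fun p hp => ?_)
        · exact zero_le_one.trans (rho_ge A c s hadm' p (mem_filter.1 hp).2)
        · rw [mem_filter, mem_Ioc] at hp
          exact rho_le A c s p z hp.2 hz hp.1.1
      refine e1.trans ?_
      rw [← Finset.prod_filter, ← Real.exp_sum]
      refine Real.exp_le_exp.2 ?_
      unfold GA
      rw [← Finset.mul_sum, ← Finset.mul_sum]
      refine mul_le_mul_of_nonneg_left (mul_le_mul_of_nonneg_left ?_ (Nat.cast_nonneg K))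
        (by norm_num)
      refine Finset.sum_le_sum_of_subset_of_nonneg ?_ (fun p _ _ => by positivity)
      intro p hp
      rw [mem_filter, mem_filter, mem_Ioc] at hp
      rw [mem_filter, Nat.mem_primeFactors]
      exact ⟨⟨hp.1.2, hp.2, hApos.ne'⟩, hp.1.1.1⟩
    have h0 := hpos' w
    have h1 := hpos' z
    have h2 := hR1 z
    have hm : 0 ≤ singPQ (qz 1 0 c) s w * singPQ (qz 1 0 c) s z * R z := by positivity
    rw [hsing w, hsing z, hsplit]
    constructor
    · calc singPQ (qz 1 0 c) s w * (singPQ (qz 1 0 c) s z * R z)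
          = (singPQ (qz 1 0 c) s w * singPQ (qz 1 0 c) s z * R z) * 1 := by ring
        _ ≤ (singPQ (qz 1 0 c) s w * singPQ (qz 1 0 c) s z * R z) *
            ∏ p ∈ (Ioc z w).filter Nat.Prime, rho A c s p := mul_le_mul_of_nonneg_left hQ1 hm
        _ = _ := by ring
    · calc singPQ (qz 1 0 c) s w * (R z * ∏ p ∈ (Ioc z w).filter Nat.Prime, rho A c s p) *
            singPQ (qz 1 0 c) s z
          = (singPQ (qz 1 0 c) s w * singPQ (qz 1 0 c) s z * R z) *
            ∏ p ∈ (Ioc z w).filter Nat.Prime, rho A c s p := by ring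
        _ ≤ (singPQ (qz 1 0 c) s w * singPQ (qz 1 0 c) s z * R z) * Real.exp (4 * GA z K A) :=
            mul_le_mul_of_nonneg_left hQ2 hm
        _ = _ := by ring
  · intro hp0 hlim
    have hconst : ∀ w, A ≤ w → R w = R A := by
      intro w hw
      rw [hRw w, hRw A, split_prod (fun p => rho A c s p) A w hw]
      have e : ∏ p ∈ (Ioc A w).filter Nat.Prime, rho A c s p = 1 := by
        refine Finset.prod_eq_one (fun p hp => ?_)
        rw [mem_filter, mem_Ioc] at hp
        unfold rho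
        rw [if_neg]
        intro hd
        exact absurd (Nat.le_of_dvd hApos hd) (not_le.2 hp.1.1)
      rw [e, mul_one]
    have hlim2 : Tendsto (singPQ (qz A B c) s) atTop (nhds (singQ (qz 1 0 c) s * R A)) := by
      have h1 := hlim.mul_const (R A)
      refine h1.congr' ?_
      filter_upwards [eventually_ge_atTop A] with w hw
      rw [hsing w, hconst w hw]
    have heq : singQ (qz A B c) s = singQ (qz 1 0 c) s * R A := hlim2.limUnder_eq
    rw [heq]
    refine ⟨?_, hlim2⟩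
    have := hR1 A
    positivity

end Pool.Agent.Q121.LZ
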